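import Pool.Agent.X32.GN.Rig

/-!
# Project GN, part RIG: infinitesimal rigidity of `X ^ d`, the end
-/

set_option autoImplicit false

namespace Pool.Agent.X32.GN

open Finset Polynomial Pool.Agent.X328.GN
open Pool.Agent.X328.FP (vl)
open scoped Differential

noncomputable section

universe u

section main

variable {E : Type u} [Field E] [Differential E] {O : ValuationSubring E} {d : ℕ} {t : Ix d → E}
  {α : Ix d → IsLocalRing.ResidueField O}

/-- the term of the sum for the point `z` -/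
def tm {F : Type*} [Field F] (d : ℕ) (α : Ix d → F) (z : F) : F :=
  (derivative (NN d α)).eval z / z ^ (d - 1) -
    d * ((NN d α).eval z / (z ^ (d - 1) * z)) - z * (derivative (VV d α)).eval z

lemma rig_sum [CharZero E] (IT : S_IT.{u}) (hd : 2 ≤ d) [CharZero (IsLocalRing.ResidueField O)]
    (ht : ∀ i, Rd O (t i) 0) (hα : ∀ i, Rd O (t i)′ (α i)) (x : E)
    (ζ : IsLocalRing.ResidueField O) (hx : (Ph d t).eval x = 0) (hxζ : Rd O x ζ)
    (hζ : ζ ^ (d ^ 3) = ζ) (hζ0 : ζ ≠ 0) (hml : (ml d t x)′ = 0) :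
    tm d α ζ + tm d α (ζ ^ d) + tm d α ((ζ ^ d) ^ d) = 0 := by
  have hd0 : (d : IsLocalRing.ResidueField O) ≠ 0 := by
    have : d ≠ 0 := by omega
    exact_mod_cast this
  obtain ⟨hm, hn⟩ := nu_monic d hd t
  obtain ⟨_, _, _, _, _, h6⟩ := IT E d hd (nu d t) (de d t) (copr hd ht) hm hn (de_deg d hd t) 3
  have hq : (Q3 d t).eval x ≠ 0 := ((RP_Q3 ht).eval hxζ).ne_zero (by simp)
  obtain ⟨_, h8, h9⟩ := h6 x hq
  have h10 : (P3 d t).eval x = x * (Q3 d t).eval x := by
    have := hx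
    rw [Ph, eval_sub, eval_mul, eval_X, sub_eq_zero] at this
    exact this
  have h11 : vl (nu d t) (de d t) (vl (nu d t) (de d t) (vl (nu d t) (de d t) x)) = x := by
    have e : (vl (nu d t) (de d t))^[3] x = x := by
      rw [← h8]
      change (P3 d t).eval x / (Q3 d t).eval x = x
      rw [h10]
      field_simp
    exact e
  have h12 : ml d t x = ∏ m ∈ range 3,
      (wrA (nu d t) (de d t)).eval ((vl (nu d t) (de d t))^[m] x) /
        (de d t).eval ((vl (nu d t) (de d t))^[m] x) ^ 2 := h9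
  rw [prod_range_succ, prod_range_succ, prod_range_succ, prod_range_zero, one_mul] at h12
  simp only [Function.iterate_zero, id_eq, Function.iterate_succ, Function.comp_apply] at h12
  set f := vl (nu d t) (de d t) with hf
  set x1 := f x with hx1
  set x2 := f x1 with hx2
  set z1 := ζ ^ d with hz1
  set z2 := z1 ^ d with hz2
  have r0 := hxζ
  have r1 : Rd O x1 z1 := Rd_vl ht r0
  have r2 : Rd O x2 z2 := Rd_vl ht r1
  have hz10 : z1 ≠ 0 := pow_ne_zero _ hζ0
  have hz20 : z2 ≠ 0 := pow_ne_zero _ hz10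
  have pw : ∀ z : IsLocalRing.ResidueField O, z ^ d = z ^ (d - 1) * z := fun z => by
    rw [← pow_succ]
    congr 1
    omega
  have pw2 : ∀ z : IsLocalRing.ResidueField O, z ^ (d - 2) * z = z ^ (d - 1) := fun z => by
    rw [← pow_succ]
    congr 1
    omega
  have ez0 : z2 ^ d = ζ := by
    rw [hz2, hz1, ← pow_mul, ← pow_mul, show d * (d * d) = d ^ 3 by ring, hζ]
  have ez1 : z1 = ζ ^ (d - 1) * ζ := by rw [hz1, pw]
  have ez2 : z2 = z1 ^ (d - 1) * z1 := by rw [hz2, pw]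
  have ez3 : ζ = z2 ^ (d - 1) * z2 := by rw [← pw, ez0]
  -- the multipliers
  set L : E → E := fun z => (wrA (nu d t) (de d t)).eval z / (de d t).eval z ^ 2 with hL
  set G : E → E := fun z => ((Differential.mapCoeffs (nu d t)).eval z * (de d t).eval z -
      (nu d t).eval z * (Differential.mapCoeffs (de d t)).eval z) / (de d t).eval z ^ 2 with hG
  have l0 : Rd O (L x) (d * ζ ^ (d - 1)) := Rd_L ht r0
  have l1 : Rd O (L x1) (d * z1 ^ (d - 1)) := Rd_L ht r1
  have l2 : Rd O (L x2) (d * z2 ^ (d - 1)) := Rd_L ht r2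
  have g0 := Rd_G hd ht hα r0
  have g1 := Rd_G hd ht hα r1
  have g2 := Rd_G hd ht hα r2
  have w0 : (de d t).eval x ≠ 0 := ((RP_de ht).eval r0).ne_zero (by simp)
  have w1 : (de d t).eval x1 ≠ 0 := ((RP_de ht).eval r1).ne_zero (by simp)
  have w2 : (de d t).eval x2 ≠ 0 := ((RP_de ht).eval r2).ne_zero (by simp)
  have d1 : x1′ = G x + L x * x′ := dvl _ _ x w0
  have d2 : x2′ = G x1 + L x1 * x1′ := dvl _ _ x1 w1
  have d3 : x′ = G x2 + L x2 * x2′ := by
    have := dvl (nu d t) (de d t) x2 w2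
    rw [← hf, h11] at this
    exact this
  have hppp : z2 ^ (d - 1) * z1 ^ (d - 1) * ζ ^ (d - 1) = 1 := by
    have : z2 ^ (d - 1) * z1 ^ (d - 1) * ζ ^ (d - 1) * ζ = ζ := by
      calc z2 ^ (d - 1) * z1 ^ (d - 1) * ζ ^ (d - 1) * ζ
          = z2 ^ (d - 1) * (z1 ^ (d - 1) * (ζ ^ (d - 1) * ζ)) := by ring
        _ = ζ := by rw [← ez1, ← ez2, ← ez3]
    exact mul_right_cancel₀ hζ0 (by rw [this, one_mul])
  have u0 : (1 : IsLocalRing.ResidueField O) -
      (d * z2 ^ (d - 1)) * ((d * z1 ^ (d - 1)) * (d * ζ ^ (d - 1))) ≠ 0 := by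
    have e : (1 : IsLocalRing.ResidueField O) -
      (d * z2 ^ (d - 1)) * ((d * z1 ^ (d - 1)) * (d * ζ ^ (d - 1))) =
      1 - (d : IsLocalRing.ResidueField O) ^ 3 *
        (z2 ^ (d - 1) * z1 ^ (d - 1) * ζ ^ (d - 1)) := by ring
    rw [e, hppp, mul_one, sub_ne_zero]
    intro h
    have h' : (1 : ℕ) = d ^ 3 := by exact_mod_cast h
    have : 1 < d ^ 3 := Nat.one_lt_pow (by norm_num) (by omega)
    omega
  have U := Rd.one.sub (l2.mul (l1.mul l0))
  have hU0 := U.ne_zero u0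
  have ex : x′ = (G x2 + L x2 * (G x1 + L x1 * G x)) / (1 - L x2 * (L x1 * L x)) := by
    rw [eq_div_iff hU0]
    linear_combination d3 + L x2 * d2 + L x2 * L x1 * d1
  obtain ⟨h0, H0⟩ : ∃ h, Rd O x′ h :=
    ⟨_, by rw [ex]; exact (g2.add (l2.mul (g1.add (l1.mul g0)))).div U u0⟩
  obtain ⟨h1, H1, e1⟩ : ∃ h, Rd O x1′ h ∧ h = ((NN d α).eval ζ -
      ζ ^ (d - 1) * ζ * (VV d α).eval ζ) + d * ζ ^ (d - 1) * h0 :=
    ⟨_, by rw [d1]; exact g0.add (l0.mul H0), rfl⟩
  obtain ⟨h2, H2, e2⟩ : ∃ h, Rd O x2′ h ∧ h = ((NN d α).eval z1 -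
      z1 ^ (d - 1) * z1 * (VV d α).eval z1) + d * z1 ^ (d - 1) * h1 :=
    ⟨_, by rw [d2]; exact g1.add (l1.mul H1), rfl⟩
  have e3 : h0 = ((NN d α).eval z2 -
      z2 ^ (d - 1) * z2 * (VV d α).eval z2) + d * z2 ^ (d - 1) * h2 := by
    refine H0.unique ?_
    rw [d3]
    exact g2.add (l2.mul H2)
  have p0 : ζ ^ (d - 1) ≠ 0 := pow_ne_zero _ hζ0
  have p1 : z1 ^ (d - 1) ≠ 0 := pow_ne_zero _ hz10
  have p2 : z2 ^ (d - 1) ≠ 0 := pow_ne_zero _ hz20
  have L0 : L x ≠ 0 := l0.ne_zero (mul_ne_zero hd0 p0)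
  have L1 : L x1 ≠ 0 := l1.ne_zero (mul_ne_zero hd0 p1)
  have L2 : L x2 ≠ 0 := l2.ne_zero (mul_ne_zero hd0 p2)
  -- the logarithmic derivative of the multiplier
  have hld : Differential.logDeriv (L x) + Differential.logDeriv (L x1) +
      Differential.logDeriv (L x2) = 0 := by
    rw [← Differential.logDeriv_mul _ _ L0 L1, ← Differential.logDeriv_mul _ _ (mul_ne_zero L0 L1) L2,
      Differential.logDeriv_eq_zero]
    rw [← h12]
    exact hml
  have S := ((Rd_ld hd hd0 ht hα r0 H0 hζ0).add (Rd_ld hd hd0 ht hα r1 H1 hz10)).add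
    (Rd_ld hd hd0 ht hα r2 H2 hz20)
  have S0 := S.unique (by
    have := Rd.zero (O := O)
    rw [← hld] at this
    exact this)
  have q0 := one2 (A := (derivative (NN d α)).eval ζ) (V := (VV d α).eval ζ)
    (W := (derivative (VV d α)).eval ζ) (h := h0) hd0 hζ0 p0 (pw2 ζ)
  have q1 := one2 (A := (derivative (NN d α)).eval z1) (V := (VV d α).eval z1)
    (W := (derivative (VV d α)).eval z1) (h := h1) hd0 hz10 p1 (pw2 z1)
  have q2 := one2 (A := (derivative (NN d α)).eval z2) (V := (VV d α).eval z2)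
    (W := (derivative (VV d α)).eval z2) (h := h2) hd0 hz20 p2 (pw2 z2)
  have s0 := one1 hζ0 p0 ez1 e1
  have s1 := one1 hz10 p1 ez2 e2
  have s2 := one1 hz20 p2 ez3 e3
  unfold tm
  linear_combination (d : IsLocalRing.ResidueField O) * S0 - q0 - q1 - q2 +
    (d : IsLocalRing.ResidueField O) * (s0 + s1 + s2)

omit [Field E] in
lemma tm_eq {F : Type*} [Field F] (d : ℕ) (α : Ix d → F) (z : F) (hz : z ≠ 0) :
    tm d α z = ∑ j : Fin (d - 1), (-(((j.1 : F) + 1) * α (Sum.inr j))) * z ^ (j.1 + 1) +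
      ∑ j : Fin (d - 1), (-(((j.1 : F) + 1) * α (Sum.inl (Fin.rev j)))) * (z ^ (j.1 + 1))⁻¹ := by
  have hA : (derivative (NN d α)).eval z / z ^ (d - 1) -
      d * ((NN d α).eval z / (z ^ (d - 1) * z)) =
      ∑ j : Fin (d - 1), (-(((j.1 : F) + 1) * α (Sum.inl (Fin.rev j)))) * (z ^ (j.1 + 1))⁻¹ := by
    have e1 : (derivative (NN d α)).eval z / z ^ (d - 1) -
        d * ((NN d α).eval z / (z ^ (d - 1) * z)) =
        ∑ j : Fin (d - 1), (α (Sum.inl j) * (((j.1 : F) + 1) * z ^ j.1) / z ^ (d - 1) -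
          d * (α (Sum.inl j) * z ^ (j.1 + 1) / (z ^ (d - 1) * z))) := by
      rw [Finset.sum_sub_distrib, ← Finset.sum_div, ← Finset.mul_sum, ← Finset.sum_div]
      congr 3
      · rw [NN, derivative_sum, eval_finsetSum]
        refine Finset.sum_congr rfl fun j _ => ?_
        rw [derivative_C_mul_X_pow]
        simp [mul_assoc]
      · rw [NN, eval_finsetSum]
        refine Finset.sum_congr rfl fun j _ => ?_
        simp
    rw [e1, ← Equiv.sum_comp Fin.revPerm]
    refine Finset.sum_congr rfl fun j _ => ?_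
    have hj := j.2
    have h1 : (Fin.revPerm j).1 = d - 1 - (j.1 + 1) := by
      rw [Fin.revPerm_apply, Fin.val_rev]
    have h2 : (Fin.revPerm j).1 + (j.1 + 1) = d - 1 := by omega
    have h3 : z ^ (d - 1) = z ^ (Fin.revPerm j).1 * z ^ (j.1 + 1) := by rw [← pow_add, h2]
    have h4 : (d : F) = ((Fin.revPerm j).1 : F) + ((j.1 : F) + 1) + 1 := by
      have h40 : d = (Fin.revPerm j).1 + (j.1 + 1) + 1 := by omega
      have h41 : (d : F) = (((Fin.revPerm j).1 + (j.1 + 1) + 1 : ℕ) : F) :=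
        congrArg (Nat.cast : ℕ → F) h40
      rw [h41]
      push_cast
      ring
    rw [h3, h4]
    have h5 : z ^ (Fin.revPerm j).1 ≠ 0 := pow_ne_zero _ hz
    have h6 : z ^ (j.1 + 1) ≠ 0 := pow_ne_zero _ hz
    have h7 : α (Sum.inl (Fin.revPerm j)) = α (Sum.inl (Fin.rev j)) := rfl
    rw [h7, pow_succ z (Fin.revPerm j).1]
    field_simp
    ring
  have hB : z * (derivative (VV d α)).eval z =
      ∑ j : Fin (d - 1), (((j.1 : F) + 1) * α (Sum.inr j)) * z ^ (j.1 + 1) := by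
    rw [VV, derivative_add, derivative_C, zero_add, derivative_sum, eval_finsetSum,
      Finset.mul_sum]
    refine Finset.sum_congr rfl fun j _ => ?_
    rw [derivative_C_mul_X_pow]
    simp only [eval_mul, eval_C, eval_pow, eval_X, Nat.cast_add, Nat.cast_one,
      Nat.add_sub_cancel]
    ring
  rw [tm, hA, hB, sub_eq_add_neg, add_comm, ← Finset.sum_neg_distrib]
  congr 1
  exact Finset.sum_congr rfl fun j _ => by rw [neg_mul]

end main

/-- **RIG** from IT and DIG -/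
theorem rig (IT : S_IT.{u}) (DIG : S_DIG.{u}) : S_RIG.{u} := by
  intro E _ _ O d hd t hN ht hs δ hδ
  by_contra hcon
  push Not at hcon
  obtain ⟨i1, hi1⟩ := hcon
  have hne : (Finset.univ : Finset (Ix d)).Nonempty := ⟨i1, Finset.mem_univ _⟩
  obtain ⟨i0, _, hi0⟩ := Finset.exists_max_image Finset.univ
    (fun i => O.valuation (δ (t i))) hne
  have h0 : δ (t i0) ≠ 0 := by
    intro h
    have := hi0 i1 (Finset.mem_univ _)
    rw [h, map_zero, le_zero_iff, map_eq_zero] at this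
    exact hi1 this
  let _ : Differential E := ⟨(δ (t i0))⁻¹ • δ⟩
  have hD : ∀ x : E, x′ = (δ (t i0))⁻¹ * δ x := fun x => rfl
  have hmem : ∀ i, (t i)′ ∈ O := by
    intro i
    rw [← O.valuation_le_one_iff, hD, map_mul, map_inv₀]
    have h1 := hi0 i (Finset.mem_univ _)
    have h2 : O.valuation (δ (t i0)) ≠ 0 := by simpa using h0
    calc (O.valuation (δ (t i0)))⁻¹ * O.valuation (δ (t i))
        ≤ (O.valuation (δ (t i0)))⁻¹ * O.valuation (δ (t i0)) := by gcongr
      _ = 1 := inv_mul_cancel₀ h2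
  have ht' : ∀ i, Rd O (t i) 0 := by
    intro i
    have h1 : t i ∈ O := (O.valuation_le_one_iff _).1 (ht i).le
    refine ⟨⟨t i, h1⟩, rfl, ?_⟩
    rw [IsLocalRing.residue_eq_zero_iff]
    exact (O.valuation_lt_one_iff ⟨t i, h1⟩).2 (ht i)
  set α : Ix d → IsLocalRing.ResidueField O := fun i =>
    IsLocalRing.residue O ⟨(t i)′, hmem i⟩ with hαdef
  have hα : ∀ i, Rd O (t i)′ (α i) := fun i => ⟨⟨(t i)′, hmem i⟩, rfl, rfl⟩
  have : CharZero (IsLocalRing.ResidueField O) := by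
    refine charZero_of_inj_zero fun n hn => ?_
    by_contra h
    have h1 : (n : O) * ⟨(n : E)⁻¹, hN n h⟩ = 1 := by
      refine Subtype.ext ?_
      have h2 : (n : E) ≠ 0 := by exact_mod_cast h
      change ((n : O) : E) * (n : E)⁻¹ = 1
      rw [show ((n : O) : E) = (n : E) by simp, mul_inv_cancel₀ h2]
    have h3 := congrArg (IsLocalRing.residue O) h1
    rw [map_mul, map_natCast, hn, zero_mul, map_one] at h3
    exact zero_ne_one h3
  obtain ⟨hsp, hroot⟩ := roots_red IT hd ht' hs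
  have hd3 : 1 < d ^ 3 := Nat.one_lt_pow (by norm_num) (by omega)
  have key := DIG (IsLocalRing.ResidueField O) d hd hsp
    (fun j => -(((j.1 : IsLocalRing.ResidueField O) + 1) * α (Sum.inr j)))
    (fun j => -(((j.1 : IsLocalRing.ResidueField O) + 1) * α (Sum.inl (Fin.rev j)))) (by
    intro ζ hζ
    have hζ0 : ζ ≠ 0 := by
      rintro rfl
      rw [zero_pow (by omega)] at hζ
      exact zero_ne_one hζ
    have hζ' : ζ ^ d ^ 3 = ζ := by
      calc ζ ^ d ^ 3 = ζ ^ (d ^ 3 - 1) * ζ := by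
            rw [← pow_succ]
            congr 1
            omega
        _ = ζ := by rw [hζ, one_mul]
    obtain ⟨x, hx, hxζ⟩ := hroot ζ hζ'
    have hml : (ml d t x)′ = 0 := by
      rw [hD, hδ x hx, mul_zero]
    have := rig_sum IT hd ht' hα x ζ hx hxζ hζ' hζ0 hml
    rw [tm_eq d α ζ hζ0, tm_eq d α _ (pow_ne_zero _ hζ0),
      tm_eq d α _ (pow_ne_zero _ (pow_ne_zero _ hζ0))] at this
    rw [sum_range_succ, sum_range_succ, sum_range_succ, sum_range_zero, zero_add]
    have e0 : ζ ^ d ^ 0 = ζ := by simp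
    have e1 : ζ ^ d ^ 1 = ζ ^ d := by simp
    have e2 : ζ ^ d ^ 2 = (ζ ^ d) ^ d := by rw [← pow_mul, sq]
    rw [e0, e1, e2]
    exact this)
  obtain ⟨ka, kb⟩ := key
  have hz : ∀ i, α i = 0 := by
    have hj : ∀ j : ℕ, ((j : IsLocalRing.ResidueField O) + 1) ≠ 0 := fun j => by
      exact_mod_cast Nat.succ_ne_zero j
    intro i
    rcases i with j | j
    · have := kb (Fin.rev j)
      simp only [Fin.rev_rev, neg_eq_zero] at this
      exact (mul_eq_zero.1 this).resolve_left (hj _)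
    · have := ka j
      simp only [neg_eq_zero] at this
      exact (mul_eq_zero.1 this).resolve_left (hj _)
  have h1 : α i0 = 1 := by
    refine (hα i0).unique ?_
    rw [hD, inv_mul_cancel₀ h0]
    exact Rd.one
  rw [hz i0] at h1
  exact zero_ne_one h1

end

end Pool.Agent.X32.GN
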