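import Pool.Agent.X32.GN.Alg2
import Pool.Agent.X60.GN.Spec

/-!
# Project GN, part SPEC for a neighbourhood of the center

The exceptional set of SPEC can be chosen such that it does not contain the center `X ^ d`: noetherian
induction with ALG for all irreducible families through the center.
-/

set_option autoImplicit false

universe u

namespace Pool.Agent.X32.GN

open Finset Polynomial Pool.Agent.X328.GN

noncomputable section

/-- the relation `s` holds for the parameters `κ` -/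
def Rel (d : ℕ) {K : Type u} [Field K] [CharZero K] (κ : Ix d → K)
    (s : ℕ × (Ix d → ℕ → MvPolynomial (Fin (d ^ 3 + 1)) ℚ)) : Prop :=
  ∀ i, (∃ m ≤ s.1, MvPolynomial.aeval (fun j : Fin (d ^ 3 + 1) =>
        (chi d κ).coeff j / (chi d κ).coeff (d ^ 3)) (s.2 i m) ≠ 0) ∧
      ∑ m ∈ range (s.1 + 1), MvPolynomial.aeval (fun j : Fin (d ^ 3 + 1) =>
        (chi d κ).coeff j / (chi d κ).coeff (d ^ 3)) (s.2 i m) * κ i ^ m = 0

/-- **SPEC2** -/
def S_SPEC2 : Prop := ∀ (d : ℕ), 2 ≤ d → ∃ (D : MvPolynomial (Ix d) ℚ)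
  (S : Finset (ℕ × (Ix d → ℕ → MvPolynomial (Fin (d ^ 3 + 1)) ℚ))),
  MvPolynomial.aeval (fun _ => (0 : ℚ)) D ≠ 0 ∧
  ∀ (K : Type u) [Field K] [CharZero K] (κ : Ix d → K), MvPolynomial.aeval κ D ≠ 0 →
    (chi d κ).coeff (d ^ 3) ≠ 0 ∧ (Ph d κ).coeff (d ^ 3) ≠ 0 ∧
    ∃ s ∈ S, ∀ i, (∃ m ≤ s.1, MvPolynomial.aeval (fun j : Fin (d ^ 3 + 1) =>
        (chi d κ).coeff j / (chi d κ).coeff (d ^ 3)) (s.2 i m) ≠ 0) ∧
      ∑ m ∈ range (s.1 + 1), MvPolynomial.aeval (fun j : Fin (d ^ 3 + 1) =>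
        (chi d κ).coeff j / (chi d κ).coeff (d ^ 3)) (s.2 i m) * κ i ^ m = 0

/-- the statement for the parameters which are zeros of the ideal `J` -/
def Good (d : ℕ) (J : Ideal (MvPolynomial (Ix d) ℚ)) : Prop :=
  ∃ (D : MvPolynomial (Ix d) ℚ) (S : Finset (ℕ × (Ix d → ℕ → MvPolynomial (Fin (d ^ 3 + 1)) ℚ))),
  MvPolynomial.aeval (fun _ => (0 : ℚ)) D ≠ 0 ∧
  ∀ (K : Type u) [Field K] [CharZero K] (κ : Ix d → K),
    (∀ p ∈ J, MvPolynomial.aeval κ p = 0) → (chi d κ).coeff (d ^ 3) ≠ 0 →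
    MvPolynomial.aeval κ D ≠ 0 → ∃ s ∈ S, Rel d κ s

/-- zeros of a sum of ideals -/
lemma zeros_sup {R K : Type*} [CommRing R] [Field K] (φ : R →+* K) (J : Ideal R) (a : R)
    (h : ∀ p ∈ J, φ p = 0) (ha : φ a = 0) : ∀ p ∈ J ⊔ Ideal.span {a}, φ p = 0 := by
  have h1 : J ⊔ Ideal.span {a} ≤ RingHom.ker φ := by
    refine sup_le (fun p hp => h p hp) ?_
    rw [Ideal.span_le, Set.singleton_subset_iff]
    exact ha
  exact fun p hp => h1 hp

/-- the step for a prime ideal -/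
lemma prime_step (hRIG : S_RIG.{0}) (hCHI : S_CHI.{0, 0}) (hC : S_CHI.{0, u}) (hIT : S_IT.{0})
    (d : ℕ) (hd : 2 ≤ d) (J : Ideal (MvPolynomial (Ix d) ℚ)) [J.IsPrime]
    (hJ : ∀ p ∈ J, MvPolynomial.aeval (fun _ => (0 : ℚ)) p = 0) :
    ∃ (p : MvPolynomial (Ix d) ℚ) (s : ℕ × (Ix d → ℕ → MvPolynomial (Fin (d ^ 3 + 1)) ℚ)),
      p ∉ J ∧ ∀ (K : Type u) [Field K] [CharZero K] (κ : Ix d → K),
        (∀ p ∈ J, MvPolynomial.aeval κ p = 0) → (chi d κ).coeff (d ^ 3) ≠ 0 →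
        MvPolynomial.aeval κ p ≠ 0 → Rel d κ s := by
  let A := MvPolynomial (Ix d) ℚ ⧸ J
  let x : Ix d → A := fun i => Ideal.Quotient.mk J (MvPolynomial.X i)
  let ev : A →+* ℚ := Ideal.Quotient.lift J
    (MvPolynomial.aeval (fun _ : Ix d => (0 : ℚ)) : MvPolynomial (Ix d) ℚ →ₐ[ℚ] ℚ).toRingHom hJ
  have hev : ∀ i, ev (x i) = 0 := by
    intro i
    have : ev (x i) = MvPolynomial.aeval (fun _ : Ix d => (0 : ℚ)) (MvPolynomial.X i) :=
      Ideal.Quotient.lift_mk J _ _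
    rw [this, MvPolynomial.aeval_X]
  have h1 : (chi d x).coeff (d ^ 3) ≠ 0 := lead_chi2 hCHI d hd A x ev hev
  have h4 : ∀ i : Ix d, ∃ (M : ℕ) (G : ℕ → MvPolynomial (Fin (d ^ 3 + 1)) ℚ)
      (e : A), e ≠ 0 ∧ ∀ (K : Type u) [Field K] [Algebra ℚ K]
      (φ : A →+* K),
      φ ((chi d x).coeff (d ^ 3)) ≠ 0 →
      φ e ≠ 0 →
      (∃ m ≤ M, MvPolynomial.aeval (fun j : Fin (d ^ 3 + 1) =>
        φ ((chi d x).coeff j) / φ ((chi d x).coeff (d ^ 3))) (G m) ≠ 0) ∧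
      ∑ m ∈ range (M + 1), MvPolynomial.aeval (fun j : Fin (d ^ 3 + 1) =>
        φ ((chi d x).coeff j) / φ ((chi d x).coeff (d ^ 3))) (G m) * φ (x i) ^ m = 0 := by
    intro i
    exact Pool.Agent.X60.GN.alg_spec (fun j : Fin (d ^ 3 + 1) => (chi d x).coeff j)
      ((chi d x).coeff (d ^ 3)) (x i) h1
      (t_ALG2 hRIG hCHI hIT d hd A x ev hev (FractionRing A) i)
  choose M G e he hK using h4
  obtain ⟨p, hp⟩ := Ideal.Quotient.mk_surjective (I := J) (∏ i, e i)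
  refine ⟨p, (univ.sup M, fun i m => if m ≤ M i then G i m else 0), ?_, ?_⟩
  · intro hpJ
    have h2 : Ideal.Quotient.mk J p = 0 := Ideal.Quotient.eq_zero_iff_mem.2 hpJ
    rw [h2] at hp
    exact (prod_ne_zero_iff.mpr fun i _ => he i) hp.symm
  · intro K _ _ κ hκ hc hpκ i
    let φ : A →+* K := Ideal.Quotient.lift J
      (MvPolynomial.aeval κ : MvPolynomial (Ix d) ℚ →ₐ[ℚ] K).toRingHom hκ
    have hφ : ∀ q, φ (Ideal.Quotient.mk J q) = MvPolynomial.aeval κ q := fun q =>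
      Ideal.Quotient.lift_mk J _ _
    have hX : (fun i => φ (x i)) = κ := by
      funext i
      show φ (Ideal.Quotient.mk J (MvPolynomial.X i)) = κ i
      rw [hφ, MvPolynomial.aeval_X]
    have hchi : ∀ j, (chi d κ).coeff j = φ ((chi d x).coeff j) := by
      intro j
      have h5 := (hC.1 A K φ d x).2.2.2
      rw [hX] at h5
      rw [← h5, coeff_map]
    have hD1 : φ ((chi d x).coeff (d ^ 3)) ≠ 0 := by
      rw [← hchi]
      exact hc
    have hD3 : ∏ i, φ (e i) ≠ 0 := by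
      rw [← map_prod, ← hp, hφ]
      exact hpκ
    obtain ⟨⟨m, hm, hmne⟩, hrel⟩ := hK i K φ hD1 (prod_ne_zero_iff.mp hD3 i (mem_univ i))
    have hM : M i ≤ univ.sup M := le_sup (mem_univ i)
    have hfun : (fun j : Fin (d ^ 3 + 1) => (chi d κ).coeff j / (chi d κ).coeff (d ^ 3)) =
        fun j : Fin (d ^ 3 + 1) =>
        φ ((chi d x).coeff j) / φ ((chi d x).coeff (d ^ 3)) := by
      funext j
      rw [hchi, hchi]
    have hXi : φ (x i) = κ i := congrFun hX i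
    rw [hfun]
    refine ⟨⟨m, hm.trans hM, ?_⟩, ?_⟩
    · dsimp only
      rw [if_pos hm]
      exact hmne
    · rw [hXi] at hrel
      have hsub : range (M i + 1) ⊆ range (univ.sup M + 1) :=
        range_subset_range.mpr (Nat.add_le_add_right hM 1)
      rw [← hrel]
      symm
      apply sum_subset_zero_on_sdiff hsub
      · intro m' hm'
        have h6 : ¬ m' ≤ M i := by
          have := (mem_sdiff.mp hm').2
          rw [mem_range] at this
          omega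
        dsimp only
        rw [if_neg h6, map_zero, zero_mul]
      · intro m' hm'
        have h6 : m' ≤ M i := by
          rw [mem_range] at hm'
          omega
        dsimp only
        rw [if_pos h6]

/-- noetherian induction -/
theorem good_all (hRIG : S_RIG.{0}) (hCHI : S_CHI.{0, 0}) (hC : S_CHI.{0, u}) (hIT : S_IT.{0})
    (d : ℕ) (hd : 2 ≤ d) (J : Ideal (MvPolynomial (Ix d) ℚ)) : Good.{u} d J := by
  classical
  refine IsNoetherian.induction (R := MvPolynomial (Ix d) ℚ) (M := MvPolynomial (Ix d) ℚ)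
    (P := Good.{u} d) (fun J ih => ?_) J
  by_cases hJ0 : ∀ p ∈ J, MvPolynomial.aeval (fun _ => (0 : ℚ)) p = 0
  swap
  · push Not at hJ0
    obtain ⟨p, hp, hp0⟩ := hJ0
    exact ⟨p, ∅, hp0, fun K _ _ κ hκ _ h => absurd (hκ p hp) h⟩
  have hgt : ∀ a, a ∉ J → J < J ⊔ Ideal.span {a} := by
    intro a ha
    refine lt_of_le_of_ne le_sup_left fun h => ha ?_
    rw [h]
    exact Ideal.mem_sup_right (Ideal.mem_span_singleton_self a)
  by_cases hpr : Ideal.IsPrime J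
  · obtain ⟨p, s, hp, hs⟩ := prime_step.{u} hRIG hCHI hC hIT d hd J hJ0
    obtain ⟨D, S, hD, hS⟩ := ih _ (hgt p hp)
    refine ⟨D, insert s S, hD, fun K _ _ κ hκ hc hDκ => ?_⟩
    by_cases hpκ : MvPolynomial.aeval κ p = 0
    · obtain ⟨s', hs', hr⟩ := hS K κ (zeros_sup
        (MvPolynomial.aeval κ : MvPolynomial (Ix d) ℚ →ₐ[ℚ] K).toRingHom J p hκ hpκ) hc hDκ
      exact ⟨s', mem_insert_of_mem hs', hr⟩
    · exact ⟨s, mem_insert_self _ _, hs K κ hκ hc hpκ⟩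
  · have hne : J ≠ ⊤ := by
      rintro rfl
      have := hJ0 1 Submodule.mem_top
      rw [map_one] at this
      exact one_ne_zero this
    rw [Ideal.isPrime_iff] at hpr
    push Not at hpr
    obtain ⟨a, b, hab, ha, hb⟩ := hpr hne
    obtain ⟨D, S, hD, hS⟩ := ih _ (hgt a ha)
    obtain ⟨D', S', hD', hS'⟩ := ih _ (hgt b hb)
    refine ⟨D * D', S ∪ S', ?_, fun K _ _ κ hκ hc hDκ => ?_⟩
    · rw [map_mul]
      exact mul_ne_zero hD hD'
    · rw [map_mul] at hDκ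
      have h1 := hκ _ hab
      rw [map_mul] at h1
      rcases mul_eq_zero.1 h1 with h2 | h2
      · obtain ⟨s', hs', hr⟩ := hS K κ (zeros_sup
          (MvPolynomial.aeval κ : MvPolynomial (Ix d) ℚ →ₐ[ℚ] K).toRingHom J a hκ h2) hc
          (left_ne_zero_of_mul hDκ)
        exact ⟨s', mem_union_left _ hs', hr⟩
      · obtain ⟨s', hs', hr⟩ := hS' K κ (zeros_sup
          (MvPolynomial.aeval κ : MvPolynomial (Ix d) ℚ →ₐ[ℚ] K).toRingHom J b hκ h2) hc
          (right_ne_zero_of_mul hDκ)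
        exact ⟨s', mem_union_right _ hs', hr⟩

/-- **SPEC2** -/
theorem t_SPEC2 (hRIG : S_RIG.{0}) (hCHI : S_CHI.{0, 0}) (hC : S_CHI.{0, u}) (hIT : S_IT.{0}) :
    S_SPEC2.{u} := by
  intro d hd
  obtain ⟨D, S, hD, hS⟩ := good_all.{u} hRIG hCHI hC hIT d hd ⊥
  let R := MvPolynomial (Ix d) ℚ
  let x : Ix d → R := fun i => MvPolynomial.X i
  let ev : R →+* ℚ := (MvPolynomial.aeval (fun _ : Ix d => (0 : ℚ)) : R →ₐ[ℚ] ℚ).toRingHom
  have hev : (fun i => ev (x i)) = fun _ => (0 : ℚ) := by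
    funext i
    exact MvPolynomial.aeval_X _ i
  have h1 : ev ((chi d x).coeff (d ^ 3)) ≠ 0 := by
    have h := (hCHI.1 R ℚ ev d x).2.2.2
    rw [hev] at h
    rw [← coeff_map, h]
    exact lead_chi2 hCHI d hd ℚ _ (RingHom.id ℚ) fun _ => rfl
  have h2 : ev ((Ph d x).coeff (d ^ 3)) ≠ 0 := by
    have h := (hCHI.1 R ℚ ev d x).2.2.1
    rw [hev] at h
    rw [← coeff_map, h]
    exact lead_Ph2 hCHI d hd ℚ _ (RingHom.id ℚ) fun _ => rfl
  refine ⟨(chi d x).coeff (d ^ 3) * (Ph d x).coeff (d ^ 3) * D, S, ?_, fun K _ _ κ hκ => ?_⟩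
  · rw [map_mul, map_mul]
    exact mul_ne_zero (mul_ne_zero h1 h2) hD
  · let φ : R →+* K := (MvPolynomial.aeval κ : R →ₐ[ℚ] K).toRingHom
    have hX : (fun i => φ (x i)) = κ := by
      funext i
      exact MvPolynomial.aeval_X κ i
    have hchi : (chi d κ).coeff (d ^ 3) = MvPolynomial.aeval κ ((chi d x).coeff (d ^ 3)) := by
      have h5 := (hC.1 R K φ d x).2.2.2
      rw [hX] at h5
      rw [← h5, coeff_map]
      rfl
    have hPh : (Ph d κ).coeff (d ^ 3) = MvPolynomial.aeval κ ((Ph d x).coeff (d ^ 3)) := by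
      have h5 := (hC.1 R K φ d x).2.2.1
      rw [hX] at h5
      rw [← h5, coeff_map]
      rfl
    rw [map_mul, map_mul] at hκ
    have k1 := left_ne_zero_of_mul (left_ne_zero_of_mul hκ)
    have k2 := right_ne_zero_of_mul (left_ne_zero_of_mul hκ)
    have k3 := right_ne_zero_of_mul hκ
    rw [← hchi] at k1
    rw [← hPh] at k2
    refine ⟨k1, k2, ?_⟩
    exact hS K κ (fun p hp => by rw [(Submodule.mem_bot _).1 hp, map_zero]) k1 k3

end

end Pool.Agent.X32.GN
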