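import Pool.Agent.X169.GN.ALG

/-!
# Project GN: the parameters of every irreducible family through the center are algebraic over the
field of the multipliers (the proof is that of helper169 for the generic family)
-/

set_option autoImplicit false

open Finset Polynomial

noncomputable section

namespace Pool.Agent.X32.GN

open Pool.Agent.X328.GN
open Pool.Agent.X169.GN (Ph_zero nu_zero de_zero cop nu_monic nu_deg de_deg prod_facts exists_der)

/-! ### valuations -/

/-- a valuation ring which dominates the localization at the origin -/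
theorem exists_val2 (d : ℕ) (A : Type) [CommRing A] [Algebra ℚ A] (x : Ix d → A) (ev : A →+* ℚ)
    (hev : ∀ i, ev (x i) = 0) (Om : Type) [Field Om] (φ : A →+* Om)
    (hφ : Function.Injective φ) : ∃ O : ValuationSubring Om, (∀ n : ℕ, n ≠ 0 → (n : Om)⁻¹ ∈ O) ∧
      ∀ i, O.valuation (φ (x i)) < 1 := by
  let e : A ≃+* φ.range := RingEquiv.ofBijective φ.rangeRestrict
    ⟨fun x y h => hφ (congrArg Subtype.val h), φ.rangeRestrict_surjective⟩
  let I : Ideal φ.range := (RingHom.ker ev).comap (e.symm : φ.range →+* A)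
  have hI : I ≠ ⊤ := by
    rw [Ne, Ideal.eq_top_iff_one]
    intro h
    have h1 : ev (e.symm 1) = 0 := h
    rw [map_one, map_one] at h1
    exact one_ne_zero h1
  obtain ⟨O, hO1, hO2⟩ := Ideal.image_subset_nonunits_valuationSubring I hI
  refine ⟨O, fun n hn => ?_, fun i => ?_⟩
  · apply hO1
    refine ⟨algebraMap ℚ A (n : ℚ)⁻¹, ?_⟩
    have h1 : φ (algebraMap ℚ A (n : ℚ)⁻¹) * (n : Om) = 1 := by
      rw [← map_natCast (φ.comp (algebraMap ℚ A)) n, RingHom.comp_apply, ← map_mul, ← map_mul,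
        inv_mul_cancel₀ (by exact_mod_cast hn), map_one, map_one]
    exact eq_inv_of_mul_eq_one_left h1
  · rw [← ValuationSubring.mem_nonunits_iff]
    apply hO2
    refine ⟨e (x i), ?_, rfl⟩
    show ev (e.symm (e (x i))) = 0
    rw [RingEquiv.symm_apply_apply]
    exact hev i

/-! ### the leading coefficients -/

theorem lead_Ph2 (hCHI : S_CHI.{0, 0}) (d : ℕ) (hd : 2 ≤ d) (A : Type) [CommRing A]
    (x : Ix d → A) (ev : A →+* ℚ) (hev : ∀ i, ev (x i) = 0) :
    (Ph d x).coeff (d ^ 3) ≠ 0 := by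
  intro h
  have h1 := (hCHI.1 A ℚ ev d x).2.2.1
  have h2 : (fun i : Ix d => ev (x i)) = fun _ => (0 : ℚ) := funext hev
  rw [h2, Ph_zero] at h1
  have h3 := congrArg (fun p : ℚ[X] => p.coeff (d ^ 3)) h1
  simp only [coeff_map, h, map_zero, coeff_sub, coeff_X_pow_self] at h3
  have h4 : (X : ℚ[X]).coeff (d ^ 3) = 0 := by
    rw [coeff_X, if_neg]
    have : 2 ^ 3 ≤ d ^ 3 := Nat.pow_le_pow_left hd 3
    omega
  rw [h4] at h3
  norm_num at h3

theorem lead_chi2 (hCHI : S_CHI.{0, 0}) (d : ℕ) (hd : 2 ≤ d) (A : Type) [CommRing A]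
    (x : Ix d → A) (ev0 : A →+* ℚ) (hev : ∀ i, ev0 (x i) = 0) :
    (chi d x).coeff (d ^ 3) ≠ 0 := by
  intro h
  have hd3 : 2 ^ 3 ≤ d ^ 3 := Nat.pow_le_pow_left hd 3
  let Om := AlgebraicClosure ℚ
  let ev : A →+* Om := (algebraMap ℚ Om).comp ev0
  have h1 := (hCHI.1 A Om ev d x).2.2.2
  have h2 : (fun i : Ix d => ev (x i)) = fun _ => (0 : Om) := by
    funext i
    show algebraMap ℚ Om (ev0 (x i)) = 0
    rw [hev, map_zero]
  rw [h2] at h1
  have hPh : (Ph d (fun _ => (0 : Om))).natDegree = d ^ 3 := by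
    rw [Ph_zero]
    have e1 : (X ^ d ^ 3 - X : Om[X]) = X ^ d ^ 3 - C 1 * X := by simp
    rw [natDegree_sub_eq_left_of_natDegree_lt]
    · exact natDegree_X_pow _
    · rw [natDegree_X_pow, natDegree_X]
      omega
  have hsp := IsAlgClosed.splits (Ph d (fun _ => (0 : Om)))
  obtain ⟨c, hc, hcc⟩ := hCHI.2 Om d hd (fun _ => 0) (by
    rw [nu_zero, de_zero]
    exact isCoprime_one_right) hPh hsp
  have hcard : ((Ph d (fun _ => (0 : Om))).roots.map (ml d fun _ => 0)).card = d ^ 3 := by
    rw [Multiset.card_map, ← hPh]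
    exact (splits_iff_card_roots.1 hsp)
  have h3 := (prod_facts c _ _ hcard).2
  rw [Multiset.map_map] at h3
  have h4 : (chi d (fun _ => (0 : Om))).coeff (d ^ 3) = c := by
    rw [hcc]
    exact h3
  rw [← h1, coeff_map, h, map_zero] at h4
  exact hc h4.symm

/-- **ALG** for every family through the center -/
theorem t_ALG2 (hRIG : S_RIG.{0}) (hCHI : S_CHI.{0, 0}) (hIT : S_IT.{0}) (d : ℕ) (hd : 2 ≤ d)
    (R : Type) [CommRing R] [IsDomain R] [Algebra ℚ R] (x : Ix d → R) (ev : R →+* ℚ)
    (hev : ∀ i, ev (x i) = 0) (F : Type) [Field F] [Algebra ℚ F] [Algebra R F]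
    [IsFractionRing R F] (i : Ix d) :
    IsAlgebraic (IntermediateField.adjoin ℚ (Set.range fun j : Fin (d ^ 3 + 1) =>
      algebraMap R F ((chi d x).coeff j) / algebraMap R F ((chi d x).coeff (d ^ 3))))
    (algebraMap R F (x i)) := by
  set c := chi d x with hcdef
  have hd3 : 2 ^ 3 ≤ d ^ 3 := Nat.pow_le_pow_left hd 3
  by_contra hcon
  set L₀ := IntermediateField.adjoin ℚ (Set.range fun j : Fin (d ^ 3 + 1) =>
      algebraMap R F (c.coeff j) / algebraMap R F (c.coeff (d ^ 3))) with hL₀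
  have hch : CharZero F := algebraRat.charZero F
  let Om := AlgebraicClosure F
  have hchOm : CharZero Om := charZero_of_injective_algebraMap (algebraMap F Om).injective
  let φ : R →+* Om := (algebraMap F Om).comp (algebraMap R F)
  have hφ : Function.Injective φ :=
    (algebraMap F Om).injective.comp (IsFractionRing.injective R F)
  obtain ⟨O, hO1, hO2⟩ := exists_val2 d R x ev hev Om φ hφ
  let t : Ix d → Om := fun i => φ (x i)
  have hcop := cop hd O t hO2
  obtain ⟨f1, f2, f3, f4⟩ := hCHI.1 R Om φ d x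
  -- the degree of `Ph`
  obtain ⟨-, g2, g3, g4, -⟩ := hIT Om d hd (nu d t) (de d t) hcop (nu_monic t) (nu_deg t)
    (de_deg hd t) 3
  have hPhc : (Ph d t).coeff (d ^ 3) ≠ 0 := by
    have e1 : Ph d t = (Ph d x).map φ := f3.symm
    rw [e1, coeff_map]
    exact fun h => lead_Ph2 hCHI d hd R x ev hev (hφ (by rw [h, map_zero]))
  have hPhd : (Ph d t).natDegree = d ^ 3 := by
    refine le_antisymm ?_ (le_natDegree_of_ne_zero hPhc)
    refine (natDegree_sub_le _ _).trans (max_le g3.le ?_)
    refine natDegree_mul_le.trans ?_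
    rw [natDegree_X]
    have : (Q3 d t).natDegree < d ^ 3 := g4
    omega
  have hsp := IsAlgClosed.splits (Ph d t)
  obtain ⟨c', hc', hcc⟩ := hCHI.2 Om d hd t hcop hPhd hsp
  have hcard : ((Ph d t).roots.map (ml d t)).card = d ^ 3 := by
    rw [Multiset.card_map, ← hPhd]
    exact (splits_iff_card_roots.1 hsp)
  obtain ⟨k1, k2⟩ := prod_facts c' _ _ hcard
  rw [Multiset.map_map] at k1 k2
  have k1' : (chi d t).natDegree ≤ d ^ 3 := by
    rw [hcc]
    exact k1
  have k2' : (chi d t).coeff (d ^ 3) = c' := by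
    rw [hcc]
    exact k2
  have k3 : ∀ j, (chi d t).coeff j = φ (c.coeff j) := fun j => by
    rw [← coeff_map]
    exact congrArg (fun p : Om[X] => p.coeff j) f4.symm
  -- the base field
  have tow : IsScalarTower L₀ F Om := inferInstance
  have htr : Transcendental L₀ (t i) := by
    intro h
    apply hcon
    have h1 : t i = algebraMap F Om (algebraMap R F (x i)) := rfl
    rw [h1] at h
    exact (isAlgebraic_algebraMap_iff (algebraMap F Om).injective).1 h
  have : CharZero L₀ := inferInstance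
  obtain ⟨D, hD, hDa⟩ := exists_der L₀ Om (t i) htr
  have hmemL : ∀ j : Fin (d ^ 3 + 1),
      algebraMap R F (c.coeff j) / algebraMap R F (c.coeff (d ^ 3)) ∈ L₀ := fun j =>
    IntermediateField.subset_adjoin _ _ ⟨j, rfl⟩
  have hr0 : algebraMap R F (c.coeff (d ^ 3)) ≠ 0 := fun h =>
    lead_chi2 hCHI d hd R x ev hev (IsFractionRing.injective R F (by rw [h, map_zero]))
  have hml : ∀ w, (Ph d t).eval w = 0 → D (ml d t w) = 0 := by
    intro w hx
    have hroot : (chi d t).eval (ml d t w) = 0 := by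
      rw [hcc, eval_mul, eval_multiset_prod]
      rw [Multiset.map_map]
      have h0 : Ph d t ≠ 0 := fun h => by rw [h, natDegree_zero] at hPhd; omega
      rw [Multiset.prod_eq_zero, mul_zero]
      refine Multiset.mem_map.2 ⟨w, (mem_roots h0).2 hx, ?_⟩
      simp
    let p : L₀[X] := ∑ j : Fin (d ^ 3 + 1), C (⟨_, hmemL j⟩ : L₀) * X ^ (j : ℕ)
    have hp1 : p.coeff (d ^ 3) = 1 := by
      rw [finsetSum_coeff, Finset.sum_eq_single (⟨d ^ 3, Nat.lt_succ_self _⟩ : Fin (d ^ 3 + 1))]
      · rw [coeff_C_mul, coeff_X_pow_self, mul_one]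
        apply Subtype.ext
        exact div_self hr0
      · intro j _ hj
        rw [coeff_C_mul, coeff_X_pow, if_neg, mul_zero]
        intro h
        exact hj (Fin.ext h.symm)
      · intro h
        exact absurd (Finset.mem_univ _) h
    have hp0 : p ≠ 0 := fun h => by rw [h, coeff_zero] at hp1; exact zero_ne_one hp1
    have hpe : aeval (ml d t w) p = 0 := by
      have h1 : ∀ j : Fin (d ^ 3 + 1), algebraMap L₀ Om (⟨_, hmemL j⟩ : L₀) =
          φ (c.coeff j) / φ (c.coeff (d ^ 3)) := fun j => by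
        rw [IsScalarTower.algebraMap_apply L₀ F Om]
        show algebraMap F Om (algebraMap R F (c.coeff j) / algebraMap R F (c.coeff (d ^ 3))) = _
        rw [map_div₀]
        rfl
      rw [map_sum]
      simp only [map_mul, aeval_C, map_pow, aeval_X, h1]
      rw [eval_eq_sum_range' (Nat.lt_succ_of_le k1'), Finset.sum_range] at hroot
      simp only [k3] at hroot
      have h2 : ∑ j : Fin (d ^ 3 + 1), φ (c.coeff j) / φ (c.coeff (d ^ 3)) * ml d t w ^ (j : ℕ) =
          (∑ j : Fin (d ^ 3 + 1), φ (c.coeff j) * ml d t w ^ (j : ℕ)) / φ (c.coeff (d ^ 3)) := by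
        rw [Finset.sum_div]
        refine Finset.sum_congr rfl fun j _ => ?_
        ring
      rw [h2, hroot, zero_div]
    exact hDa _ ⟨p, hp0, hpe⟩
  have hfin := hRIG Om O d hd t hO1 hO2 hsp D (fun w hx => hml w hx) i
  have : D (t i) = 0 := hfin
  rw [hD] at this
  exact one_ne_zero this

end Pool.Agent.X32.GN
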