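import Pool.Agent.X328.GN.Stm

/-!
# Project GN, part RIG: functoriality of the iterates, places as relations
-/

set_option autoImplicit false

namespace Pool.Agent.X32.GN

open Finset Polynomial Pool.Agent.X328.GN
open Pool.Agent.X328.FP (vl)

noncomputable section

section maps

variable {A A' : Type*} [CommRing A] [CommRing A'] (φ : A →+* A')

lemma nu_map (d : ℕ) (t : Ix d → A) : (nu d t).map φ = nu d (fun i => φ (t i)) := by
  simp [nu, Polynomial.map_sum]

lemma de_map (d : ℕ) (t : Ix d → A) : (de d t).map φ = de d (fun i => φ (t i)) := by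
  simp [de, Polynomial.map_sum]

lemma hm_map (d : ℕ) (F P Q : A[X]) :
    (hm d F P Q).map φ = hm d (F.map φ) (P.map φ) (Q.map φ) := by
  simp [hm, Polynomial.map_sum]

lemma it_map (d : ℕ) (u w : A[X]) (n : ℕ) :
    (it d u w n).1.map φ = (it d (u.map φ) (w.map φ) n).1 ∧
      (it d u w n).2.map φ = (it d (u.map φ) (w.map φ) n).2 := by
  induction n with
  | zero => simp [it]
  | succ n ih => simp [it, hm_map, ih.1, ih.2]

lemma P3_map (d : ℕ) (t : Ix d → A) : (P3 d t).map φ = P3 d (fun i => φ (t i)) := by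
  rw [P3, (it_map φ d _ _ 3).1, nu_map, de_map, P3]

lemma Q3_map (d : ℕ) (t : Ix d → A) : (Q3 d t).map φ = Q3 d (fun i => φ (t i)) := by
  rw [Q3, (it_map φ d _ _ 3).2, nu_map, de_map, Q3]

lemma Ph_map (d : ℕ) (t : Ix d → A) : (Ph d t).map φ = Ph d (fun i => φ (t i)) := by
  simp [Ph, P3_map, Q3_map]

lemma nu_zero (d : ℕ) : nu d (fun _ => (0 : A)) = X ^ d := by simp [nu]

lemma de_zero (d : ℕ) : de d (fun _ => (0 : A)) = 1 := by simp [de]

lemma hm_X_pow (d : ℕ) (P Q : A[X]) : hm d (X ^ d) P Q = P ^ d := by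
  unfold hm
  rw [Finset.sum_eq_single d]
  · simp
  · intro i _ hne
    simp [coeff_X_pow, hne]
  · simp

lemma hm_one (d : ℕ) (P Q : A[X]) : hm d 1 P Q = Q ^ d := by
  unfold hm
  rw [Finset.sum_eq_single 0]
  · simp
  · intro i _ hne
    simp [coeff_one, hne]
  · simp

lemma it_zero (d n : ℕ) : it d (X ^ d : A[X]) 1 n = (X ^ (d ^ n), 1) := by
  induction n with
  | zero => simp [it]
  | succ n ih => simp [it, ih, hm_X_pow, hm_one, ← pow_mul, pow_succ]

lemma P3_zero (d : ℕ) : P3 d (fun _ => (0 : A)) = X ^ (d ^ 3) := by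
  simp [P3, nu_zero, de_zero, it_zero]

lemma Q3_zero (d : ℕ) : Q3 d (fun _ => (0 : A)) = 1 := by
  simp [Q3, nu_zero, de_zero, it_zero]

lemma Ph_zero (d : ℕ) : Ph d (fun _ => (0 : A)) = X ^ (d ^ 3) - X := by
  simp [Ph, P3_zero, Q3_zero]

lemma nu_aux (d : ℕ) (hd : 2 ≤ d) (t : Ix d → A) :
    (∑ i : Fin (d - 1), C (t (Sum.inl i)) * X ^ (i.1 + 1)).degree < (d : WithBot ℕ) := by
  refine (degree_sum_le _ _).trans_lt ?_
  refine (Finset.sup_lt_iff (WithBot.bot_lt_coe d)).2 fun i _ => ?_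
  refine (degree_C_mul_X_pow_le _ _).trans_lt ?_
  have := i.2
  exact Nat.cast_lt.2 (by omega : i.1 + 1 < d)

lemma nu_monic [Nontrivial A] (d : ℕ) (hd : 2 ≤ d) (t : Ix d → A) :
    (nu d t).Monic ∧ (nu d t).natDegree = d := by
  have h1 := nu_aux d hd t
  have h2 : (nu d t).Monic := by
    unfold nu
    exact monic_X_pow_add h1
  refine ⟨h2, ?_⟩
  unfold nu
  rw [natDegree_add_eq_left_of_degree_lt, natDegree_X_pow]
  rwa [degree_X_pow]

lemma de_deg (d : ℕ) (hd : 2 ≤ d) (t : Ix d → A) : (de d t).natDegree < d := by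
  have h : (de d t).natDegree ≤ d - 1 := by
    unfold de
    refine (natDegree_add_le _ _).trans (max_le (by rw [natDegree_C]; exact Nat.zero_le _) ?_)
    refine natDegree_sum_le_of_forall_le _ _ fun i _ => ?_
    refine (natDegree_C_mul_X_pow_le _ _).trans ?_
    have := i.2
    omega
  omega

end maps

section place

variable {E : Type*} [Field E] (O : ValuationSubring E)

/-- `x` is in `O` and its residue is `a` -/
def Rd (x : E) (a : IsLocalRing.ResidueField O) : Prop :=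
  ∃ y : O, (y : E) = x ∧ IsLocalRing.residue O y = a

/-- the same for the coefficients of polynomials -/
def RP (p : E[X]) (q : (IsLocalRing.ResidueField O)[X]) : Prop :=
  ∃ y : O[X], y.map (algebraMap O E) = p ∧ y.map (IsLocalRing.residue O) = q

variable {O}

lemma Rd.add {x y : E} {a b : IsLocalRing.ResidueField O} (h : Rd O x a) (h' : Rd O y b) :
    Rd O (x + y) (a + b) := by
  obtain ⟨u, rfl, rfl⟩ := h
  obtain ⟨v, rfl, rfl⟩ := h'
  exact ⟨u + v, by simp, by simp⟩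

lemma Rd.sub {x y : E} {a b : IsLocalRing.ResidueField O} (h : Rd O x a) (h' : Rd O y b) :
    Rd O (x - y) (a - b) := by
  obtain ⟨u, rfl, rfl⟩ := h
  obtain ⟨v, rfl, rfl⟩ := h'
  exact ⟨u - v, by simp, by simp⟩

lemma Rd.mul {x y : E} {a b : IsLocalRing.ResidueField O} (h : Rd O x a) (h' : Rd O y b) :
    Rd O (x * y) (a * b) := by
  obtain ⟨u, rfl, rfl⟩ := h
  obtain ⟨v, rfl, rfl⟩ := h'
  exact ⟨u * v, by simp, by simp⟩

lemma Rd.pow {x : E} {a : IsLocalRing.ResidueField O} (h : Rd O x a) (n : ℕ) :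
    Rd O (x ^ n) (a ^ n) := by
  obtain ⟨u, rfl, rfl⟩ := h
  exact ⟨u ^ n, by simp, by simp⟩

lemma Rd.natCast (n : ℕ) : Rd O (n : E) (n : IsLocalRing.ResidueField O) :=
  ⟨n, by simp, by simp⟩

lemma Rd.one : Rd O (1 : E) 1 := ⟨1, by simp, by simp⟩

lemma Rd.zero : Rd O (0 : E) 0 := ⟨0, by simp, by simp⟩

lemma Rd.unique {x : E} {a b : IsLocalRing.ResidueField O} (h : Rd O x a) (h' : Rd O x b) :
    a = b := by
  obtain ⟨u, rfl, rfl⟩ := h
  obtain ⟨v, hv, rfl⟩ := h'
  rw [Subtype.coe_injective hv]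

lemma Rd.inv {x : E} {a : IsLocalRing.ResidueField O} (h : Rd O x a) (ha : a ≠ 0) :
    Rd O x⁻¹ a⁻¹ := by
  obtain ⟨u, rfl, rfl⟩ := h
  obtain ⟨u, rfl⟩ := (IsLocalRing.residue_ne_zero_iff_isUnit u).1 ha
  refine ⟨(u⁻¹ : Oˣ), ?_, ?_⟩
  · refine eq_inv_of_mul_eq_one_left ?_
    have := congrArg (fun z : O => (z : E)) u.inv_mul
    exact this
  · refine eq_inv_of_mul_eq_one_left ?_
    rw [← map_mul, u.inv_mul, map_one]

lemma Rd.div {x y : E} {a b : IsLocalRing.ResidueField O} (h : Rd O x a) (h' : Rd O y b)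
    (hb : b ≠ 0) : Rd O (x / y) (a / b) := by
  rw [div_eq_mul_inv, div_eq_mul_inv]
  exact h.mul (h'.inv hb)

lemma Rd.ne_zero {x : E} {a : IsLocalRing.ResidueField O} (h : Rd O x a) (ha : a ≠ 0) :
    x ≠ 0 := by
  rintro rfl
  exact ha (h.unique Rd.zero)

lemma RP.add {x y : E[X]} {a b : (IsLocalRing.ResidueField O)[X]} (h : RP O x a)
    (h' : RP O y b) : RP O (x + y) (a + b) := by
  obtain ⟨u, rfl, rfl⟩ := h
  obtain ⟨v, rfl, rfl⟩ := h'
  exact ⟨u + v, by simp, by simp⟩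

lemma RP.sub {x y : E[X]} {a b : (IsLocalRing.ResidueField O)[X]} (h : RP O x a)
    (h' : RP O y b) : RP O (x - y) (a - b) := by
  obtain ⟨u, rfl, rfl⟩ := h
  obtain ⟨v, rfl, rfl⟩ := h'
  exact ⟨u - v, by simp, by simp⟩

lemma RP.mul {x y : E[X]} {a b : (IsLocalRing.ResidueField O)[X]} (h : RP O x a)
    (h' : RP O y b) : RP O (x * y) (a * b) := by
  obtain ⟨u, rfl, rfl⟩ := h
  obtain ⟨v, rfl, rfl⟩ := h'
  exact ⟨u * v, by simp, by simp⟩

lemma RP.deriv {x : E[X]} {a : (IsLocalRing.ResidueField O)[X]} (h : RP O x a) :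
    RP O (derivative x) (derivative a) := by
  obtain ⟨u, rfl, rfl⟩ := h
  exact ⟨derivative u, by simp [derivative_map], by simp [derivative_map]⟩

lemma RP.sum {ι : Type*} (s : Finset ι) (f : ι → E[X]) (g : ι → (IsLocalRing.ResidueField O)[X])
    (h : ∀ i ∈ s, RP O (f i) (g i)) : RP O (∑ i ∈ s, f i) (∑ i ∈ s, g i) := by
  classical
  induction s using Finset.induction_on with
  | empty => exact ⟨0, by simp, by simp⟩
  | insert a s ha ih =>
    rw [Finset.sum_insert ha, Finset.sum_insert ha]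
    exact (h a (Finset.mem_insert_self a s)).add
      (ih fun i hi => h i (Finset.mem_insert_of_mem hi))

lemma RP.CX {x : E} {a : IsLocalRing.ResidueField O} (h : Rd O x a) (n : ℕ) :
    RP O (C x * X ^ n) (C a * X ^ n) := by
  obtain ⟨u, rfl, rfl⟩ := h
  refine ⟨C u * X ^ n, ?_, ?_⟩
  · simp only [Polynomial.map_mul, map_C, Polynomial.map_pow, map_X]
    rfl
  · simp

lemma RP.C {x : E} {a : IsLocalRing.ResidueField O} (h : Rd O x a) :
    RP O (Polynomial.C x) (Polynomial.C a) := by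
  have := RP.CX h 0
  simpa using this

lemma RP.eval {p : E[X]} {q : (IsLocalRing.ResidueField O)[X]} (h : RP O p q) {x : E}
    {a : IsLocalRing.ResidueField O} (hx : Rd O x a) : Rd O (p.eval x) (q.eval a) := by
  obtain ⟨P, rfl, rfl⟩ := h
  obtain ⟨u, rfl, rfl⟩ := hx
  refine ⟨P.eval u, ?_, ?_⟩
  · have : ((P.eval u : O) : E) = algebraMap O E (P.eval u) := rfl
    rw [this, ← Polynomial.eval_map_apply]
    rfl
  · rw [← Polynomial.eval_map_apply]

end place

end

end Pool.Agent.X32.GN
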