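import Pool.Agent.X32.GN.Rt
import Mathlib.RingTheory.Derivation.MapCoeffs
import Mathlib.FieldTheory.Differential.Basic

/-!
# Project GN, part RIG: infinitesimal rigidity of `X ^ d`
-/

set_option autoImplicit false

namespace Pool.Agent.X32.GN

open Finset Polynomial Pool.Agent.X328.GN
open Pool.Agent.X328.FP (vl)
open scoped Differential

noncomputable section

universe u

section alg

variable {F : Type*} [Field F]

lemma one1 {D z z' p B V h h' : F} (hz : z ≠ 0) (hp : p ≠ 0) (e : z' = p * z)
    (e' : h' = B - p * z * V + D * p * h) : h' / z' = B / (p * z) - V + D * (h / z) := by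
  rw [e, e']
  field_simp

lemma one2 {D z p q A V W h : F} (hD : D ≠ 0) (hz : z ≠ 0) (hp : p ≠ 0) (hq : q * z = p) :
    ((A + D * p * V - p * z * W + D * (D - 1) * q * h) / (D * p) - 2 * V) * D =
      A / p - D * V - z * W + D * (D - 1) * (h / z) := by
  have hq0 : q ≠ 0 := by
    rintro rfl
    apply hp
    rw [← hq, zero_mul]
  subst hq
  field_simp
  ring

end alg

section der

variable {E : Type u} [Field E] [Differential E]

lemma dev (p : E[X]) (x : E) : (p.eval x)′ =
    (Differential.mapCoeffs p).eval x + (derivative p).eval x * x′ := by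
  have := Differential.deriv_aeval_eq (A := E) (R := E) x p
  simpa [coe_aeval_eq_eval] using this

lemma dmap (p : E[X]) : Differential.mapCoeffs (derivative p) =
    derivative (Differential.mapCoeffs p) := by
  ext n
  rw [Differential.coeff_mapCoeffs, coeff_derivative, coeff_derivative,
    Differential.coeff_mapCoeffs, Derivation.leibniz]
  have : ((n : E) + 1)′ = 0 := by
    rw [map_add, Derivation.map_natCast, Derivation.map_one_eq_zero, add_zero]
  rw [this, smul_zero, zero_add, smul_eq_mul, mul_comm]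

lemma dnu (d : ℕ) (t : Ix d → E) : Differential.mapCoeffs (nu d t) =
    ∑ i : Fin (d - 1), C ((t (Sum.inl i))′) * X ^ (i.1 + 1) := by
  ext n
  simp only [nu, Differential.coeff_mapCoeffs, coeff_add, finsetSum_coeff, coeff_C_mul,
    coeff_X_pow, map_add, map_sum]
  have : (if n = d then (1 : E) else 0)′ = 0 := by
    split_ifs
    · exact Derivation.map_one_eq_zero _
    · exact map_zero _
  rw [this, zero_add]
  refine Finset.sum_congr rfl fun i _ => ?_
  split_ifs <;> simp

lemma dde (d : ℕ) (t : Ix d → E) : Differential.mapCoeffs (de d t) =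
    C (∑ i : Fin (d - 1), (t (Sum.inl i))′ - ∑ i : Fin (d - 1), (t (Sum.inr i))′) +
    ∑ i : Fin (d - 1), C ((t (Sum.inr i))′) * X ^ (i.1 + 1) := by
  ext n
  simp only [de, Differential.coeff_mapCoeffs, coeff_add, finsetSum_coeff, coeff_C_mul,
    coeff_X_pow, map_add, map_sum, coeff_C]
  congr 1
  · split_ifs
    · rw [map_sub, map_add, map_sum, map_sum, Derivation.map_one_eq_zero, zero_add]
    · exact map_zero _
  · refine Finset.sum_congr rfl fun i _ => ?_
    split_ifs <;> simp

/-- the derivative of `(n / w) (z)` -/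
lemma dvl (n w : E[X]) (z : E) (hw : w.eval z ≠ 0) : (vl n w z)′ =
    ((Differential.mapCoeffs n).eval z * w.eval z -
      n.eval z * (Differential.mapCoeffs w).eval z) / w.eval z ^ 2 +
    (wrA n w).eval z / w.eval z ^ 2 * z′ := by
  rw [vl, Derivation.leibniz_div, dev, dev, wrA]
  simp only [smul_eq_mul, eval_sub, eval_mul]
  field_simp
  ring

lemma ldL (n w : E[X]) (z : E) (hw : w.eval z ≠ 0) (hW : (wrA n w).eval z ≠ 0) :
    Differential.logDeriv ((wrA n w).eval z / w.eval z ^ 2) =
    ((Differential.mapCoeffs (wrA n w)).eval z + (derivative (wrA n w)).eval z * z′) /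
      (wrA n w).eval z -
    2 * (((Differential.mapCoeffs w).eval z + (derivative w).eval z * z′) / w.eval z) := by
  rw [Differential.logDeriv_div _ _ hW (pow_ne_zero 2 hw), Differential.logDeriv_pow,
    Differential.logDeriv, Differential.logDeriv, dev, dev]
  norm_num

lemma dwr (n w : E[X]) : Differential.mapCoeffs (wrA n w) =
    derivative n * Differential.mapCoeffs w + w * derivative (Differential.mapCoeffs n) -
      (n * derivative (Differential.mapCoeffs w) + derivative w * Differential.mapCoeffs n) := by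
  rw [wrA, map_sub, Derivation.leibniz, Derivation.leibniz, dmap, dmap]
  simp only [smul_eq_mul]

end der

section main

lemma Rd.sum {E : Type*} [Field E] {O : ValuationSubring E} {ι : Type*} (s : Finset ι)
    (f : ι → E) (g : ι → IsLocalRing.ResidueField O)
    (h : ∀ i ∈ s, Rd O (f i) (g i)) : Rd O (∑ i ∈ s, f i) (∑ i ∈ s, g i) := by
  classical
  induction s using Finset.induction_on with
  | empty => exact Rd.zero
  | insert a s ha ih =>
    rw [Finset.sum_insert ha, Finset.sum_insert ha]
    exact (h a (Finset.mem_insert_self a s)).add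
      (ih fun i hi => h i (Finset.mem_insert_of_mem hi))

/-- the reduction of the derivative of `nu` -/
def NN {F : Type*} [Field F] (d : ℕ) (α : Ix d → F) : F[X] :=
  ∑ i : Fin (d - 1), C (α (Sum.inl i)) * X ^ (i.1 + 1)

/-- the reduction of the derivative of `de` -/
def VV {F : Type*} [Field F] (d : ℕ) (α : Ix d → F) : F[X] :=
  C (∑ i : Fin (d - 1), α (Sum.inl i) - ∑ i : Fin (d - 1), α (Sum.inr i)) +
    ∑ i : Fin (d - 1), C (α (Sum.inr i)) * X ^ (i.1 + 1)

variable {E : Type u} [Field E] [Differential E] {O : ValuationSubring E} {d : ℕ} {t : Ix d → E}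
  {α : Ix d → IsLocalRing.ResidueField O}

lemma RP_dnu (hα : ∀ i, Rd O (t i)′ (α i)) :
    RP O (Differential.mapCoeffs (nu d t)) (NN d α) := by
  rw [dnu]
  exact RP.sum _ _ _ fun i _ => RP.CX (hα _) _

lemma RP_dde (hα : ∀ i, Rd O (t i)′ (α i)) :
    RP O (Differential.mapCoeffs (de d t)) (VV d α) := by
  rw [dde]
  exact (RP.C ((Rd.sum _ _ _ fun i _ => hα _).sub (Rd.sum _ _ _ fun i _ => hα _))).add
    (RP.sum _ _ _ fun i _ => RP.CX (hα _) _)

omit [Differential E] in
lemma RP_wr (ht : ∀ i, Rd O (t i) 0) : RP O (wrA (nu d t) (de d t))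
    (C (d : IsLocalRing.ResidueField O) * X ^ (d - 1)) := by
  have := ((RP_nu ht).deriv.mul (RP_de ht)).sub ((RP_nu ht).mul (RP_de ht).deriv)
  rw [derivative_X_pow, derivative_one, mul_zero, sub_zero, mul_one] at this
  exact this

lemma RP_dwr (ht : ∀ i, Rd O (t i) 0) (hα : ∀ i, Rd O (t i)′ (α i)) :
    RP O (Differential.mapCoeffs (wrA (nu d t) (de d t)))
      (C (d : IsLocalRing.ResidueField O) * X ^ (d - 1) * VV d α + derivative (NN d α) -
        X ^ d * derivative (VV d α)) := by
  rw [dwr]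
  have := (((RP_nu ht).deriv.mul (RP_dde hα)).add ((RP_de ht).mul (RP_dnu hα).deriv)).sub
    (((RP_nu ht).mul (RP_dde hα).deriv).add ((RP_de ht).deriv.mul (RP_dnu hα)))
  rw [derivative_X_pow, derivative_one, zero_mul, add_zero, one_mul] at this
  exact this

omit [Differential E] in
lemma Rd_vl (ht : ∀ i, Rd O (t i) 0) {z : E} {ζ : IsLocalRing.ResidueField O} (hz : Rd O z ζ) :
    Rd O (vl (nu d t) (de d t) z) (ζ ^ d) := by
  have := ((RP_nu ht).eval hz).div ((RP_de ht).eval hz) (by simp)
  simpa [vl] using this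

omit [Differential E] in
lemma Rd_L (ht : ∀ i, Rd O (t i) 0) {z : E} {ζ : IsLocalRing.ResidueField O} (hz : Rd O z ζ) :
    Rd O ((wrA (nu d t) (de d t)).eval z / (de d t).eval z ^ 2)
      ((d : IsLocalRing.ResidueField O) * ζ ^ (d - 1)) := by
  have := ((RP_wr ht).eval hz).div (((RP_de ht).eval hz).pow 2) (by simp)
  simpa using this

lemma Rd_G (hd : 2 ≤ d) (ht : ∀ i, Rd O (t i) 0) (hα : ∀ i, Rd O (t i)′ (α i)) {z : E}
    {ζ : IsLocalRing.ResidueField O} (hz : Rd O z ζ) :
    Rd O (((Differential.mapCoeffs (nu d t)).eval z * (de d t).eval z -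
      (nu d t).eval z * (Differential.mapCoeffs (de d t)).eval z) / (de d t).eval z ^ 2)
      ((NN d α).eval ζ - ζ ^ (d - 1) * ζ * (VV d α).eval ζ) := by
  have := ((((RP_dnu hα).eval hz).mul ((RP_de ht).eval hz)).sub
    (((RP_nu ht).eval hz).mul ((RP_dde hα).eval hz))).div (((RP_de ht).eval hz).pow 2) (by simp)
  have e : ζ ^ (d - 1) * ζ = ζ ^ d := by
    rw [← pow_succ]
    congr 1
    omega
  rw [e]
  simpa using this

lemma Rd_ld (hd : 2 ≤ d) (hd0 : (d : IsLocalRing.ResidueField O) ≠ 0) (ht : ∀ i, Rd O (t i) 0)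
    (hα : ∀ i, Rd O (t i)′ (α i)) {z : E}
    {ζ η : IsLocalRing.ResidueField O} (hz : Rd O z ζ) (hz' : Rd O z′ η) (hζ : ζ ≠ 0) :
    Rd O (Differential.logDeriv ((wrA (nu d t) (de d t)).eval z / (de d t).eval z ^ 2))
      (((derivative (NN d α)).eval ζ + d * ζ ^ (d - 1) * (VV d α).eval ζ -
        ζ ^ (d - 1) * ζ * (derivative (VV d α)).eval ζ + d * (d - 1) * ζ ^ (d - 2) * η) /
        (d * ζ ^ (d - 1)) - 2 * (VV d α).eval ζ) := by
  have h1 := (RP_de ht).eval hz
  have h2 := (RP_wr ht).eval hz
  have h20 : (C (d : IsLocalRing.ResidueField O) * X ^ (d - 1)).eval ζ ≠ 0 := by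
    simp [hd0, hζ]
  have h3 := ((((RP_dwr ht hα).eval hz).add (((RP_wr ht).deriv.eval hz).mul hz')).div h2 h20).sub
    ((Rd.natCast 2).mul
      ((((RP_dde hα).eval hz).add (((RP_de ht).deriv.eval hz).mul hz')).div h1 (by simp)))
  rw [ldL _ _ _ (h1.ne_zero (by simp)) (h2.ne_zero h20)]
  have e : ζ ^ (d - 1) * ζ = ζ ^ d := by
    rw [← pow_succ]
    congr 1
    omega
  have e2 : ((d - 1 : ℕ) : IsLocalRing.ResidueField O) = d - 1 := by
    rw [Nat.cast_sub (by omega), Nat.cast_one]
  have e3 : d - 1 - 1 = d - 2 := by omega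
  rw [derivative_C_mul_X_pow, e3] at h3
  simp only [eval_sub, eval_add, eval_mul, eval_C, eval_pow, eval_X, eval_one, derivative_one,
    eval_zero, zero_mul, add_zero, div_one, e2, Nat.cast_ofNat] at h3
  rw [e]
  convert h3 using 2
  ring

end main

end

end Pool.Agent.X32.GN
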