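import Pool.Agent.X32.GN.Bas

/-!
# Project GN, part RIG: coprimality, degrees, the roots of `Ph` reduce to roots of unity
-/

set_option autoImplicit false

namespace Pool.Agent.X32.GN

open Finset Polynomial Pool.Agent.X328.GN
open Pool.Agent.X328.FP (vl)

noncomputable section

universe u

variable {E : Type u} [Field E] {O : ValuationSubring E} {d : ℕ} {t : Ix d → E}

lemma lift_t (ht : ∀ i, Rd O (t i) 0) : ∃ s : Ix d → O, (fun i => algebraMap O E (s i)) = t ∧
    (fun i => IsLocalRing.residue O (s i)) = fun _ => 0 := by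
  choose s h1 h2 using ht
  exact ⟨s, funext h1, funext h2⟩

lemma RP_nu (ht : ∀ i, Rd O (t i) 0) : RP O (nu d t) (X ^ d) := by
  obtain ⟨s, h1, h2⟩ := lift_t ht
  exact ⟨nu d s, by rw [nu_map, h1], by rw [nu_map, h2, nu_zero]⟩

lemma RP_de (ht : ∀ i, Rd O (t i) 0) : RP O (de d t) 1 := by
  obtain ⟨s, h1, h2⟩ := lift_t ht
  exact ⟨de d s, by rw [de_map, h1], by rw [de_map, h2, de_zero]⟩

lemma RP_Q3 (ht : ∀ i, Rd O (t i) 0) : RP O (Q3 d t) 1 := by
  obtain ⟨s, h1, h2⟩ := lift_t ht
  exact ⟨Q3 d s, by rw [Q3_map, h1], by rw [Q3_map, h2, Q3_zero]⟩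

lemma copr (hd : 2 ≤ d) (ht : ∀ i, Rd O (t i) 0) : IsCoprime (nu d t) (de d t) := by
  obtain ⟨s, h1, h2⟩ := lift_t ht
  obtain ⟨hm, hn⟩ := nu_monic d hd s
  have key : IsUnit (resultant (nu d s) (de d s)) := by
    refine (IsLocalRing.residue_ne_zero_iff_isUnit _).1 ?_
    rw [← resultant_map_map, nu_map, de_map, h2, nu_zero, de_zero, hn, resultant_one_right]
    simp
  have h3 := (isUnit_resultant_iff_isCoprime hm).1 key
  have h4 := h3.map (mapRingHom (algebraMap O E))
  rw [coe_mapRingHom, nu_map, de_map, h1] at h4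
  exact h4

lemma Ph_deg (IT : S_IT.{u}) (hd : 2 ≤ d) (ht : ∀ i, Rd O (t i) 0) :
    (Ph d t).natDegree ≤ d ^ 3 := by
  obtain ⟨hm, hn⟩ := nu_monic d hd t
  obtain ⟨_, _, h3, h4, _, _⟩ := IT E d hd (nu d t) (de d t) (copr hd ht) hm hn (de_deg d hd t) 3
  unfold Ph P3 Q3
  refine (natDegree_sub_le _ _).trans (max_le h3.le ?_)
  refine natDegree_mul_le.trans ?_
  rw [natDegree_X]
  omega

lemma lift_ms (S : Multiset E) (h : ∀ x ∈ S, ∃ y : O, algebraMap O E y = x) :
    ∃ T : Multiset O, T.map (algebraMap O E) = S := by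
  induction S using Multiset.induction_on with
  | empty => exact ⟨0, by simp⟩
  | cons a S ih =>
    obtain ⟨T, hT⟩ := ih fun x hx => h x (Multiset.mem_cons_of_mem hx)
    obtain ⟨y, hy⟩ := h a (Multiset.mem_cons_self a S)
    exact ⟨y ::ₘ T, by rw [Multiset.map_cons, hT, hy]⟩

/-- the polynomial `X ^ (d ^ 3) - X` over the residue field splits and its roots come from the roots of
`Ph` -/
lemma roots_red (IT : S_IT.{u}) (hd : 2 ≤ d) (ht : ∀ i, Rd O (t i) 0) (hs : (Ph d t).Splits) :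
    (X ^ (d ^ 3) - X : (IsLocalRing.ResidueField O)[X]).Splits ∧
    ∀ ζ : IsLocalRing.ResidueField O, ζ ^ (d ^ 3) = ζ →
      ∃ x : E, (Ph d t).eval x = 0 ∧ Rd O x ζ := by
  obtain ⟨s, h1, h2⟩ := lift_t ht
  set P := Ph d s with hP
  have hPE : P.map (algebraMap O E) = Ph d t := by rw [hP, Ph_map, h1]
  have hPF : P.map (IsLocalRing.residue O) = X ^ (d ^ 3) - X := by rw [hP, Ph_map, h2, Ph_zero]
  have hinj : Function.Injective (algebraMap O E) := Subtype.coe_injective
  have hdeg : P.natDegree ≤ d ^ 3 := by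
    rw [← natDegree_map_eq_of_injective hinj, hPE]
    exact Ph_deg IT hd ht
  have hd3 : 1 < d ^ 3 := Nat.one_lt_pow (by norm_num) (by omega)
  have hc : IsLocalRing.residue O (P.coeff (d ^ 3)) = 1 := by
    rw [← coeff_map, hPF]
    simp [coeff_X, hd3.ne]
  have hu : IsUnit (P.coeff (d ^ 3)) :=
    (IsLocalRing.residue_ne_zero_iff_isUnit _).1 (by rw [hc]; exact one_ne_zero)
  obtain ⟨c, hcu⟩ := hu
  have hdeg2 : P.natDegree = d ^ 3 := by
    refine le_antisymm hdeg (le_natDegree_of_ne_zero ?_)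
    rw [← hcu]
    exact c.ne_zero
  set M : O[X] := C ((c⁻¹ : Oˣ) : O) * P with hM
  have hMm : M.Monic := by
    have h3 : P.leadingCoeff = c := by rw [leadingCoeff, hdeg2, hcu]
    have h4 := leadingCoeff_C_mul_of_isUnit (c⁻¹).isUnit P
    rw [Monic, hM, h4, h3]
    simp
  have hcr : IsLocalRing.residue O ((c⁻¹ : Oˣ) : O) = 1 := by
    have h3 : IsLocalRing.residue O (c : O) = 1 := by rw [hcu, hc]
    have h4 : IsLocalRing.residue O ((c⁻¹ : Oˣ) : O) * IsLocalRing.residue O (c : O) = 1 := by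
      rw [← map_mul, c.inv_mul, map_one]
    rwa [h3, mul_one] at h4
  have hMF : M.map (IsLocalRing.residue O) = X ^ (d ^ 3) - X := by
    rw [hM, Polynomial.map_mul, hPF, map_C, hcr, C_1, one_mul]
  have hME : M.map (algebraMap O E) = C (algebraMap O E ((c⁻¹ : Oˣ) : O)) * Ph d t := by
    rw [hM, Polynomial.map_mul, hPE, map_C]
  have hMs : (M.map (algebraMap O E)).Splits := by
    rw [hME]
    exact (Splits.C _).mul hs
  have hMm' : (M.map (algebraMap O E)).Monic := hMm.map _
  have e1 := hMs.eq_prod_roots_of_monic hMm'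
  obtain ⟨T, hT⟩ := lift_ms (O := O) (M.map (algebraMap O E)).roots (by
    intro x hx
    refine IsIntegrallyClosed.isIntegral_iff.1 ⟨M, hMm, ?_⟩
    rw [eval₂_eq_eval_map]
    exact (mem_roots'.1 hx).2)
  have e2 : M = (T.map fun a => X - C a).prod := by
    refine map_injective _ hinj ?_
    rw [e1, ← hT, Polynomial.map_multiset_prod, Multiset.map_map, Multiset.map_map]
    congr 1
    refine Multiset.map_congr rfl fun a _ => ?_
    simp
  have e3 : (X ^ (d ^ 3) - X : (IsLocalRing.ResidueField O)[X]) =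
      (T.map fun a => X - C (IsLocalRing.residue O a)).prod := by
    rw [← hMF, e2, Polynomial.map_multiset_prod, Multiset.map_map]
    congr 1
    refine Multiset.map_congr rfl fun a _ => ?_
    simp
  refine ⟨?_, fun ζ hζ => ?_⟩
  · rw [e3]
    refine Splits.multisetProd fun f hf => ?_
    obtain ⟨a, _, rfl⟩ := Multiset.mem_map.1 hf
    exact Splits.X_sub_C _
  · have h5 : (X ^ (d ^ 3) - X : (IsLocalRing.ResidueField O)[X]).eval ζ = 0 := by
      simp [hζ]
    rw [e3, eval_multiset_prod, Multiset.prod_eq_zero_iff, Multiset.map_map,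
      Multiset.mem_map] at h5
    obtain ⟨a, ha, h6⟩ := h5
    simp only [Function.comp_apply, eval_sub, eval_X, eval_C, sub_eq_zero] at h6
    refine ⟨algebraMap O E a, ?_, a, rfl, h6.symm⟩
    have h7 : algebraMap O E a ∈ (M.map (algebraMap O E)).roots := by
      rw [← hT]
      exact Multiset.mem_map_of_mem _ ha
    have h8 := (mem_roots'.1 h7).2
    rw [hME, IsRoot.def, eval_mul, eval_C] at h8
    refine (mul_eq_zero.1 h8).resolve_left ?_
    intro h9
    exact (c⁻¹).ne_zero (hinj (by rw [h9, map_zero]))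

end

end Pool.Agent.X32.GN
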